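import Pool.Agent.H17.RX.Stm

set_option autoImplicit false
open Filter Topology MeasureTheory
open scoped ComplexConjugate ENNReal

namespace Pool.Agent.H2.RX

open Pool.Agent.H17.RX Cardinal

lemma mk_HH_le (d : ℕ → ℕ) : Cardinal.mk (HH d) ≤ Cardinal.continuum := by
  have h1 : Cardinal.mk (ℕ → ℕ → ℂ) ≤ Cardinal.continuum := by
    have e1 : Cardinal.mk (ℕ → ℂ) = Cardinal.continuum := by
      rw [← Cardinal.power_def, Cardinal.mk_complex, Cardinal.mk_nat,
        Cardinal.continuum_power_aleph0]
    have e2 : Cardinal.mk (ℕ → ℕ → ℂ) = Cardinal.continuum := by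
      rw [← Cardinal.power_def, e1, Cardinal.mk_nat, Cardinal.continuum_power_aleph0]
    exact e2.le
  refine le_trans (Cardinal.mk_le_of_injective
    (f := fun (x : HH d) (k j : ℕ) => if h : j < d k then x k ⟨j, h⟩ else 0) ?_) h1
  intro x y hxy
  apply lp.ext
  funext k
  ext j
  have := congrFun (congrFun hxy k) j.1
  simpa [j.2] using this

lemma mk_fun_le (d : ℕ → ℕ) (α : Type) [Countable α] :
    Cardinal.mk (α → HH d) ≤ Cardinal.continuum := by
  rw [← Cardinal.power_def]
  calc Cardinal.mk (HH d) ^ Cardinal.mk α ≤ Cardinal.continuum ^ Cardinal.mk α :=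
        Cardinal.power_le_power_right (mk_HH_le d)
    _ ≤ Cardinal.continuum ^ Cardinal.aleph0 :=
        Cardinal.power_le_power_left Cardinal.continuum_ne_zero Cardinal.mk_le_aleph0
    _ = Cardinal.continuum := Cardinal.continuum_power_aleph0

theorem t_CARD : S_CARD := by
  intro d
  refine ⟨mk_fun_le d _, ?_⟩
  refine le_trans (Cardinal.mk_le_of_injective
    (f := fun (S : HH d →L⋆[ℂ] HH d) (i : Σ k, Fin (d k)) =>
      S (lp.single 2 i.1 (EuclideanSpace.single i.2 (1 : ℂ)))) ?_) (mk_fun_le d _)
  intro S S' hSS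
  have h1 : ∀ (k : ℕ) (x : F (d k)), S (lp.single 2 k x) = S' (lp.single 2 k x) := by
    intro k x
    have hx : x = ∑ j, x j • EuclideanSpace.single j (1 : ℂ) := by
      ext j
      simp [Pi.single_apply]
    have hx2 : lp.single (E := fun k => F (d k)) 2 k x =
        ∑ j, x j • lp.single (E := fun k => F (d k)) 2 k (EuclideanSpace.single j (1 : ℂ)) := by
      conv_lhs => rw [hx]
      rw [← lp.singleAddMonoidHom_apply, map_sum]
      refine Finset.sum_congr rfl fun j _ => ?_
      rw [lp.singleAddMonoidHom_apply, lp.single_smul]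
    rw [hx2, map_sum, map_sum]
    refine Finset.sum_congr rfl fun j _ => ?_
    rw [map_smulₛₗ, map_smulₛₗ]
    have := congrFun hSS ⟨k, j⟩
    simp only at this
    rw [this]
  ext1 f
  have hf : HasSum (fun i => lp.single (E := fun k => F (d k)) 2 i (f i)) f :=
    lp.hasSum_single (by norm_num) f
  have a1 := hf.map S S.continuous
  have a2 := hf.map S' S'.continuous
  have e : (⇑S ∘ fun i => lp.single (E := fun k => F (d k)) 2 i (f i)) =
      (⇑S' ∘ fun i => lp.single (E := fun k => F (d k)) 2 i (f i)) := by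
    funext i
    exact h1 i (f i)
  rw [e] at a1
  exact a1.unique a2

end Pool.Agent.H2.RX
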